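import Pool.Agent.R599.NC.Code
import Pool.Agent.R562.QH.Fin

set_option autoImplicit false

/-! # The asymptotic lower bound -/

namespace Pool.Agent.R599.NC

open Finset Filter Pool.Agent.R562.QH Pool.Agent.TH697.Form Pool.Agent.TH697.Row
  Pool.Agent.Y638.WF

theorem log_small (η M : ℝ) (hη : 0 < η) : ∀ᶠ n : ℕ in atTop, M * Real.logb 2 n ≤ (n : ℝ) ^ η := by
  have h1 := isLittleO_log_rpow_atTop hη
  have h2 : (0 : ℝ) < Real.log 2 := Real.log_pos (by norm_num)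
  have h3 := h1.bound (show (0 : ℝ) < Real.log 2 / (|M| + 1) by positivity)
  have h4 := tendsto_natCast_atTop_atTop (R := ℝ) |>.eventually h3
  filter_upwards [h4, eventually_ge_atTop 1] with n hn hn1
  have hn1' : (1 : ℝ) ≤ n := by exact_mod_cast hn1
  have hl : 0 ≤ Real.log n := Real.log_nonneg hn1'
  rw [Real.norm_of_nonneg hl, Real.norm_of_nonneg (by positivity : (0 : ℝ) ≤ (n : ℝ) ^ η)] at hn
  rw [div_mul_eq_mul_div, le_div_iff₀ (by positivity)] at hn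
  rw [Real.logb, mul_div_assoc', div_le_iff₀ h2]
  calc M * Real.log n ≤ (|M| + 1) * Real.log n := by
        apply mul_le_mul_of_nonneg_right _ hl
        linarith [le_abs_self M]
    _ = Real.log n * (|M| + 1) := by ring
    _ ≤ Real.log 2 * (n : ℝ) ^ η := hn
    _ = _ := by ring

open Classical in
theorem asym (ε δ : ℝ) (hε : 0 < ε) (hδ : 0 < δ) : ∃ k₀ : ℕ, ∀ k, k₀ ≤ k →
    ∀ s : ℕ, (3 / 4 + δ) * k ≤ s → s ≤ k → ∀ d F G c b : ℕ, ∀ᶠ n : ℕ in atTop,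
      ∀ (Q v w V S : ℕ), 1 ≤ w → 1 ≤ V → V ≤ n ^ b → v ≤ G * (Nat.log 2 (F * n ^ c) + 1) →
      ∀ (Ω : Type) [Fintype Ω] (μ : Ω → ℝ), IsProb μ →
      ∀ (size : Fin Q × Clause v d → ℕ), ∑ j, size j ≤ S →
      ∀ (R : Ω → (j : Fin Q × Clause v d) →
          Program (Pairs n) (fun _ => Bool) w 2 V (Promise n k s) (size j))
        (ev : Ω → (Fin Q → Bool) → Bool),
        ApproximatesOn μ (fun ω x => ev ω fun i => decide (Sat fun cl => (R ω (i, cl)).eval x))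
          (Promise n k s) (fun x => decide (¬ (graph x).CliqueFree k)) →
        (n : ℝ) ^ (4 - ε) ≤ (w : ℝ) ^ 2 * S + (n : ℝ) ^ 2 * Q := by
  obtain ⟨e, he⟩ : ∃ e, e = ⌈4 / ε⌉₊ + 1 := ⟨_, rfl⟩
  have he1 : 1 ≤ e := by omega
  have heε : 4 / ε ≤ e := by
    have := Nat.le_ceil (4 / ε)
    rw [he]
    push_cast
    linarith
  have he0 : (0 : ℝ) < e := by exact_mod_cast he1
  have heε' : 2 / (e : ℝ) ≤ ε / 2 := by
    rw [div_le_iff₀ hε] at heε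
    rw [div_le_div_iff₀ he0 (by norm_num)]
    linarith
  refine ⟨⌈((e : ℝ) + 4) / δ⌉₊ + 4, fun k hk s hs hsk => ?_⟩
  have hk4 : 4 ≤ k := by omega
  have hkδ : (e : ℝ) + 4 ≤ δ * k := by
    have h1 := Nat.le_ceil (((e : ℝ) + 4) / δ)
    have h2 : ((⌈((e : ℝ) + 4) / δ⌉₊ + 4 : ℕ) : ℝ) ≤ k := by exact_mod_cast hk
    push_cast at h2
    have h3 : ((e : ℝ) + 4) / δ ≤ k := by linarith
    rw [div_le_iff₀ hδ] at h3
    linarith
  obtain ⟨r, hr⟩ : ∃ r, r = k / 4 := ⟨_, rfl⟩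
  have hr1 : 1 ≤ r := by omega
  have hkr : 4 * r ≤ k := by omega
  have hku : k - 4 * r ≤ 3 := by omega
  have hs' : 3 * r + (e - 1) + (k - 4 * r) < s := by
    have h1 : (3 * (k : ℝ)) / 4 + (e + 4) ≤ s := by linarith
    have h2 : ((3 * k + 4 * (e + 4) : ℕ) : ℝ) ≤ ((4 * s : ℕ) : ℝ) := by
      push_cast
      linarith
    have h3 : 3 * k + 4 * (e + 4) ≤ 4 * s := by exact_mod_cast h2
    omega
  intro d F G c b
  obtain ⟨C, hC, hpar⟩ := exists_params e k he1 hk4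
  have hbig : ∀ᶠ n : ℕ in atTop, 1 ≤ (49 / 600 : ℝ) * C ^ 2 * (n : ℝ) ^ (ε / 4) / 1 := by
    have h1 : Tendsto (fun n : ℕ => (n : ℝ) ^ (ε / 4)) atTop atTop :=
      (tendsto_rpow_atTop (by positivity)).comp tendsto_natCast_atTop_atTop
    filter_upwards [h1.eventually_ge_atTop (1 / ((49 / 600 : ℝ) * C ^ 2))] with n hn
    rw [div_le_iff₀ (by positivity)] at hn
    linarith
  filter_upwards [hpar, hbig, few_clauses (ε / 16) (by positivity) d F G c 1,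
    log_small (ε / 16) (12 * b + 47) (by positivity), eventually_ge_atTop 3] with
    n hn hnbig hfew hlog hn3
  intro Q v w V S hw hV hVb hv Ω _ μ hμ size hS R ev hR
  by_contra hcon
  push Not at hcon
  obtain ⟨g, p, hp, hkp, hcard, hgn, hC2⟩ := hn
  have hn1 : (3 : ℝ) ≤ n := by exact_mod_cast hn3
  have hn0 : (0 : ℝ) < n := by linarith
  have hw1 : (1 : ℝ) ≤ w := by exact_mod_cast hw
  have hS0 : (0 : ℝ) ≤ S := Nat.cast_nonneg S
  have hQ0 : (0 : ℝ) ≤ Q := Nat.cast_nonneg Q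
  haveI : Fact p.Prime := ⟨hp⟩
  obtain ⟨cd, hcd⟩ := exists_code p e r he1 (by omega)
  -- the embedding
  obtain ⟨φ⟩ : Nonempty (Vt g r p r (k - 4 * r) (Fin e → ZMod p) ↪ Fin n) := by
    apply Function.Embedding.nonempty_of_card_le
    rw [Fintype.card_sum, Fintype.card_sum, Fintype.card_prod, Fintype.card_prod,
      Fintype.card_prod, Fintype.card_prod, Fintype.card_prod, Fintype.card_bool,
      Fintype.card_fun, ZMod.card]
    simp only [Fintype.card_fin]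
    rw [hr]
    exact hcard
  have hbd := bound φ cd hcd (k := k) (s := s) (by omega)
    (by
      have h1 : max (2 * r + r) (2 * r + r + (e - 1)) = 3 * r + (e - 1) := by
        rw [max_eq_right (by omega)]
        ring
      rw [h1]
      exact hs') (by omega) hsk μ hμ hw hV size hS R
    (fun ω a => ev ω fun i => decide (Sat fun cl => a (i, cl))) hR
  -- estimates
  obtain ⟨ℓ, hℓ⟩ : ∃ ℓ, ℓ = Real.logb 2 n := ⟨_, rfl⟩
  have hℓ1 : 1 ≤ ℓ := by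
    rw [hℓ, Real.le_logb_iff_rpow_le (by norm_num) hn0]
    linarith [Real.rpow_one (2 : ℝ)]
  have hpow : ∀ i : ℕ, Real.logb 2 ((n : ℝ) ^ i) = i * ℓ := by
    intro i
    rw [hℓ, Real.logb_pow]
  have hn4 : (n : ℝ) ^ (4 - ε) ≤ (n : ℝ) ^ 4 := by
    rw [← Real.rpow_natCast]
    exact Real.rpow_le_rpow_of_exponent_le (by linarith) (by push_cast; linarith)
  have hSn : (S : ℝ) ≤ (n : ℝ) ^ 4 := by
    have h1 : (S : ℝ) ≤ (w : ℝ) ^ 2 * S := le_mul_of_one_le_left hS0 (one_le_pow₀ hw1)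
    have h2 : 0 ≤ (n : ℝ) ^ 2 * Q := by positivity
    linarith
  have hL : Real.logb 2 (S + 2) ≤ 5 * ℓ := by
    rw [← Nat.cast_ofNat (n := 5), ← hpow 5]
    apply Real.logb_le_logb_of_le (by norm_num) (by positivity)
    have h1 : (2 : ℝ) ≤ (n : ℝ) ^ 4 := by
      calc (2 : ℝ) ≤ n := by linarith
        _ = (n : ℝ) ^ 1 := (pow_one _).symm
        _ ≤ (n : ℝ) ^ 4 := pow_le_pow_right₀ (by linarith) (by norm_num)
    calc (S : ℝ) + 2 ≤ 2 * (n : ℝ) ^ 4 := by linarith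
      _ ≤ n * (n : ℝ) ^ 4 := by gcongr; linarith
      _ = (n : ℝ) ^ 5 := by ring
  have hL0 : 0 ≤ Real.logb 2 ((S : ℝ) + 2) := Real.logb_nonneg (by norm_num) (by linarith)
  have hVl : Real.logb 2 (2 * V + 1) ≤ (b + 2) * ℓ := by
    have h1 := hpow (b + 2)
    push_cast at h1
    rw [← h1]
    apply Real.logb_le_logb_of_le (by norm_num) (by positivity)
    have h2 : (V : ℝ) ≤ (n : ℝ) ^ b := by exact_mod_cast hVb
    have h3 : (1 : ℝ) ≤ (n : ℝ) ^ b := one_le_pow₀ (by linarith)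
    calc (2 : ℝ) * V + 1 ≤ 3 * (n : ℝ) ^ b := by linarith
      _ ≤ (n * n) * (n : ℝ) ^ b := by gcongr; nlinarith
      _ = (n : ℝ) ^ (b + 2) := by ring
  have hJ : (Fintype.card (Fin Q × Clause v d) : ℝ) = Q * (2 * v + 1) ^ d := by
    rw [Fintype.card_prod, card_clause, Fintype.card_fin]
    push_cast
    ring
  have hcA : (Fintype.card (Fin e → ZMod p) : ℝ) = (p : ℝ) ^ e := by
    rw [Fintype.card_fun, ZMod.card, Fintype.card_fin]
    push_cast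
    ring
  rw [hJ, hcA] at hbd
  have hη : (0 : ℝ) < (n : ℝ) ^ (ε / 16) := by positivity
  have hη1 : (1 : ℝ) ≤ (n : ℝ) ^ (ε / 16) := Real.one_le_rpow (by linarith) (by positivity)
  have hη2 : (n : ℝ) ^ (ε / 16) * (n : ℝ) ^ (ε / 16) ≤ (n : ℝ) ^ (ε / 4) := by
    rw [← Real.rpow_add hn0]
    exact Real.rpow_le_rpow_of_exponent_le (by linarith) (by linarith)
  have hη3 : (n : ℝ) ^ (ε / 16) ≤ (n : ℝ) ^ (ε / 4) :=
    Real.rpow_le_rpow_of_exponent_le (by linarith) (by linarith)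
  have hlog' : (12 * b + 47) * ℓ ≤ (n : ℝ) ^ (ε / 16) := by rw [hℓ]; exact hlog
  have hfew' : (2 * v + 1 : ℝ) ^ d ≤ (n : ℝ) ^ (ε / 16) := by
    have := hfew v hv
    linarith
  have hb0 : (0 : ℝ) ≤ b := Nat.cast_nonneg b
  -- first term
  have hT1 : (w : ℝ) * (1 + 12 * Real.logb 2 (2 * V + 1) + 4 * Real.logb 2 (S + 2) +
      2 * (w - 1)) * S ≤ (n : ℝ) ^ (ε / 4) * ((w : ℝ) ^ 2 * S) := by
    have h1 : 1 + 12 * Real.logb 2 (2 * V + 1) + 4 * Real.logb 2 (S + 2) + 2 * ((w : ℝ) - 1) ≤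
        (12 * b + 47) * ℓ * w := by
      have h2 : 1 + 12 * Real.logb 2 (2 * V + 1) + 4 * Real.logb 2 (S + 2) ≤
          (12 * b + 45) * ℓ := by
        have : 12 * Real.logb 2 (2 * V + 1) ≤ 12 * ((b + 2) * ℓ) := by linarith
        have : 4 * Real.logb 2 ((S : ℝ) + 2) ≤ 4 * (5 * ℓ) := by linarith
        have e1 : (12 * b + 45) * ℓ = 12 * ((b + 2) * ℓ) + 4 * (5 * ℓ) + ℓ := by ring
        linarith
      have h3 : (12 * b + 45) * ℓ ≤ (12 * b + 45) * ℓ * w :=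
        le_mul_of_one_le_right (by positivity) hw1
      have h4 : 2 * ((w : ℝ) - 1) ≤ 2 * ℓ * w := by
        have : (w : ℝ) ≤ ℓ * w := le_mul_of_one_le_left (by linarith) hℓ1
        linarith
      have e1 : (12 * b + 47) * ℓ * w = (12 * b + 45) * ℓ * w + 2 * ℓ * w := by ring
      linarith
    calc (w : ℝ) * (1 + 12 * Real.logb 2 (2 * V + 1) + 4 * Real.logb 2 (S + 2) +
        2 * (w - 1)) * S ≤ w * ((12 * b + 47) * ℓ * w) * S := by gcongr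
      _ = ((12 * b + 47) * ℓ) * ((w : ℝ) ^ 2 * S) := by ring
      _ ≤ (n : ℝ) ^ (ε / 4) * ((w : ℝ) ^ 2 * S) := by
        apply mul_le_mul_of_nonneg_right (hlog'.trans hη3) (by positivity)
  -- second term
  have hT2 : (g : ℝ) ^ 2 * (Q * (2 * v + 1) ^ d * Real.logb 2 (S + 2)) ≤
      (n : ℝ) ^ (ε / 4) * ((n : ℝ) ^ 2 * Q) := by
    have hg : (g : ℝ) ≤ n := by exact_mod_cast hgn
    have h5 : Real.logb 2 ((S : ℝ) + 2) ≤ (n : ℝ) ^ (ε / 16) := by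
      refine hL.trans (le_trans ?_ hlog')
      apply mul_le_mul_of_nonneg_right _ (by linarith)
      linarith
    calc (g : ℝ) ^ 2 * (Q * (2 * v + 1) ^ d * Real.logb 2 (S + 2))
        ≤ (n : ℝ) ^ 2 * (Q * (n : ℝ) ^ (ε / 16) * (n : ℝ) ^ (ε / 16)) := by gcongr
      _ = ((n : ℝ) ^ (ε / 16) * (n : ℝ) ^ (ε / 16)) * ((n : ℝ) ^ 2 * Q) := by ring
      _ ≤ (n : ℝ) ^ (ε / 4) * ((n : ℝ) ^ 2 * Q) :=
        mul_le_mul_of_nonneg_right hη2 (by positivity)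
  have hmain : (49 / 600 : ℝ) * (g * (p : ℝ) ^ e) ^ 2 < (n : ℝ) ^ (ε / 4) * (n : ℝ) ^ (4 - ε) := by
    have h1 : (g : ℝ) ^ 2 * ((49 / 600 : ℝ) * ((p : ℝ) ^ e) ^ 2 -
        Q * (2 * v + 1) ^ d * Real.logb 2 (S + 2)) = (49 / 600 : ℝ) * (g * (p : ℝ) ^ e) ^ 2 -
        (g : ℝ) ^ 2 * (Q * (2 * v + 1) ^ d * Real.logb 2 (S + 2)) := by ring
    rw [h1] at hbd
    have h2 : (49 / 600 : ℝ) * (g * (p : ℝ) ^ e) ^ 2 ≤
        (n : ℝ) ^ (ε / 4) * ((w : ℝ) ^ 2 * S + (n : ℝ) ^ 2 * Q) := by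
      rw [mul_add]
      linarith
    exact h2.trans_lt (mul_lt_mul_of_pos_left hcon (by positivity))
  have hlow : (49 / 600 : ℝ) * C ^ 2 * (n : ℝ) ^ (4 - ε / 2) ≤
      (49 / 600 : ℝ) * (g * (p : ℝ) ^ e) ^ 2 := by
    have h1 : (C * (n : ℝ) ^ (2 - 1 / (e : ℝ))) ^ 2 ≤ (g * (p : ℝ) ^ e) ^ 2 :=
      pow_le_pow_left₀ (by positivity) hC2 2
    have h2 : (n : ℝ) ^ (4 - ε / 2) ≤ ((n : ℝ) ^ (2 - 1 / (e : ℝ))) ^ 2 := by
      rw [← Real.rpow_natCast, ← Real.rpow_mul hn0.le]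
      apply Real.rpow_le_rpow_of_exponent_le (by linarith)
      push_cast
      have e1 : (2 - 1 / (e : ℝ)) * 2 = 4 - 2 / e := by ring
      rw [e1]
      linarith
    calc (49 / 600 : ℝ) * C ^ 2 * (n : ℝ) ^ (4 - ε / 2)
        ≤ (49 / 600 : ℝ) * C ^ 2 * ((n : ℝ) ^ (2 - 1 / (e : ℝ))) ^ 2 := by gcongr
      _ = (49 / 600 : ℝ) * (C * (n : ℝ) ^ (2 - 1 / (e : ℝ))) ^ 2 := by ring
      _ ≤ _ := by gcongr
  have hfin := hlow.trans_lt hmain
  have e1 : (n : ℝ) ^ (4 - ε / 2) = (n : ℝ) ^ (ε / 4) * ((n : ℝ) ^ (ε / 4) * (n : ℝ) ^ (4 - ε)) := by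
    rw [← Real.rpow_add hn0, ← Real.rpow_add hn0]
    congr 1
    ring
  rw [e1] at hfin
  have h3 : (n : ℝ) ^ (ε / 4) * (n : ℝ) ^ (4 - ε) ≤
      (49 / 600 : ℝ) * C ^ 2 * ((n : ℝ) ^ (ε / 4) * ((n : ℝ) ^ (ε / 4) * (n : ℝ) ^ (4 - ε))) := by
    have h4 : 0 ≤ (n : ℝ) ^ (ε / 4) * (n : ℝ) ^ (4 - ε) := by positivity
    calc (n : ℝ) ^ (ε / 4) * (n : ℝ) ^ (4 - ε) = 1 * ((n : ℝ) ^ (ε / 4) * (n : ℝ) ^ (4 - ε)) := by
          ring
      _ ≤ ((49 / 600 : ℝ) * C ^ 2 * (n : ℝ) ^ (ε / 4) / 1) *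
          ((n : ℝ) ^ (ε / 4) * (n : ℝ) ^ (4 - ε)) := mul_le_mul_of_nonneg_right hnbig h4
      _ = _ := by ring
  linarith

end Pool.Agent.R599.NC
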