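import Pool.Agent.R562.QH.Clique

set_option autoImplicit false

/-! # Graphs in which the bits of a string are queried by a small set of edges -/

namespace Pool.Agent.R599.NC

open Finset Pool.Agent.R562.QH

/-- The vertices: `U σ i l s` (side, group, class, symbol), `W σ a μ` (side, index, copy), and `u`
vertices which are adjacent to all other vertices. -/
abbrev Vt (g r t m u : ℕ) (A : Type) : Type :=
  (Bool × Fin g × Fin r × Fin t) ⊕ (Bool × A × Fin m) ⊕ Fin u

/-- The colours. -/
abbrev Col (r m u : ℕ) : Type := (Bool × Fin r) ⊕ (Bool × Fin m) ⊕ Fin u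

section

variable {g r t m u : ℕ} {A : Type}

/-- the colouring -/
def col : Vt g r t m u A → Col r m u
  | .inl p => .inl (p.1, p.2.2.1)
  | .inr (.inl p) => .inr (.inl (p.1, p.2.2))
  | .inr (.inr j) => .inr (.inr j)

/-- The edges. The active groups are `act`, the queried indices are `idx`, the code is `c`, the string
is `z`. -/
def Rel (c : A → Fin r → Fin t) (act : Bool → Fin g) (idx : Bool → A) (z : A → A → Bool) :
    Vt g r t m u A → Vt g r t m u A → Prop
  | .inl p, .inl p' => p.2.1 = act p.1 ∧ p'.2.1 = act p'.1 ∧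
      if p.1 = p'.1 then p.2.2.1 ≠ p'.2.2.1 else
        (p.2.2.2 = c (idx p.1) p.2.2.1 ∧ p'.2.2.2 = c (idx p'.1) p'.2.2.1)
  | .inl p, .inr (.inl p') => p.2.1 = act p.1 ∧ (p.1 = p'.1 → p.2.2.2 = c p'.2.1 p.2.2.1)
  | .inr (.inl p'), .inl p => p.2.1 = act p.1 ∧ (p.1 = p'.1 → p.2.2.2 = c p'.2.1 p.2.2.1)
  | .inr (.inl p), .inr (.inl p') =>
      if p.1 = p'.1 then p.2.1 = p'.2.1 ∧ p.2.2 ≠ p'.2.2 else
        (if p.1 = false then z p.2.1 p'.2.1 = true else z p'.2.1 p.2.1 = true)
  | .inr (.inr j), .inr (.inr j') => j ≠ j'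
  | .inr (.inr _), .inl _ => True
  | .inr (.inr _), .inr (.inl _) => True
  | .inl _, .inr (.inr _) => True
  | .inr (.inl _), .inr (.inr _) => True

theorem Rel.symm {c : A → Fin r → Fin t} {act : Bool → Fin g} {idx : Bool → A}
    {z : A → A → Bool} : ∀ {p q : Vt g r t m u A}, Rel c act idx z p q → Rel c act idx z q p
  | .inl p, .inl p', h => by
      simp only [Rel] at h ⊢
      refine ⟨h.2.1, h.1, ?_⟩
      by_cases h1 : p.1 = p'.1
      · rw [if_pos h1] at h
        rw [if_pos h1.symm]
        exact h.2.2.symm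
      · rw [if_neg h1] at h
        rw [if_neg (Ne.symm h1)]
        exact ⟨h.2.2.2, h.2.2.1⟩
  | .inl p, .inr (.inl p'), h => h
  | .inr (.inl p'), .inl p, h => h
  | .inr (.inl p), .inr (.inl p'), h => by
      simp only [Rel] at h ⊢
      by_cases h1 : p.1 = p'.1
      · rw [if_pos h1] at h
        rw [if_pos h1.symm]
        exact ⟨h.1.symm, h.2.symm⟩
      · rw [if_neg h1] at h
        rw [if_neg (Ne.symm h1)]
        cases hp : p.1 <;> cases hp' : p'.1 <;> simp_all
  | .inr (.inr j), .inr (.inr j'), h => Ne.symm h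
  | .inr (.inr _), .inl _, _ => trivial
  | .inr (.inr _), .inr (.inl _), _ => trivial
  | .inl _, .inr (.inr _), _ => trivial
  | .inr (.inl _), .inr (.inr _), _ => trivial

theorem Rel.col_ne {c : A → Fin r → Fin t} {act : Bool → Fin g} {idx : Bool → A}
    {z : A → A → Bool} : ∀ {p q : Vt g r t m u A}, Rel c act idx z p q → col p ≠ col q
  | .inl p, .inl p', h, hc => by
      simp only [col, Sum.inl.injEq, Prod.mk.injEq] at hc
      simp only [Rel] at h
      rw [if_pos hc.1] at h
      exact h.2.2 hc.2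
  | .inl p, .inr (.inl p'), h, hc => by simp [col] at hc
  | .inr (.inl p'), .inl p, h, hc => by simp [col] at hc
  | .inr (.inl p), .inr (.inl p'), h, hc => by
      simp only [col, Sum.inl.injEq, Sum.inr.injEq, Prod.mk.injEq] at hc
      simp only [Rel] at h
      rw [if_pos hc.1] at h
      exact h.2 hc.2
  | .inr (.inr j), .inr (.inr j'), h, hc => by
      simp only [col, Sum.inr.injEq] at hc
      exact h hc
  | .inr (.inr _), .inl _, _, hc => by simp [col] at hc
  | .inr (.inr _), .inr (.inl _), _, hc => by simp [col] at hc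
  | .inl _, .inr (.inr _), _, hc => by simp [col] at hc
  | .inr (.inl _), .inr (.inr _), _, hc => by simp [col] at hc

/-- the intended clique, indexed by the colours -/
def good (c : A → Fin r → Fin t) (act : Bool → Fin g) (idx : Bool → A) :
    Col r m u → Vt g r t m u A
  | .inl p => .inl (p.1, act p.1, p.2, c (idx p.1) p.2)
  | .inr (.inl p) => .inr (.inl (p.1, idx p.1, p.2))
  | .inr (.inr j) => .inr (.inr j)

theorem col_good (c : A → Fin r → Fin t) (act : Bool → Fin g) (idx : Bool → A) :
    ∀ k : Col r m u, col (good (t := t) c act idx k) = k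
  | .inl _ => rfl
  | .inr (.inl _) => rfl
  | .inr (.inr _) => rfl

theorem good_rel (c : A → Fin r → Fin t) (act : Bool → Fin g) (idx : Bool → A)
    (z : A → A → Bool) (hz : z (idx false) (idx true) = true) :
    ∀ k k' : Col r m u, k ≠ k' → Rel c act idx z (good c act idx k) (good c act idx k')
  | .inl p, .inl p', h => by
      refine ⟨rfl, rfl, ?_⟩
      by_cases h1 : p.1 = p'.1
      · rw [if_pos h1]
        intro h2
        exact h (by rw [show p = p' from Prod.ext h1 h2])
      · rw [if_neg h1]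
        exact ⟨rfl, rfl⟩
  | .inl p, .inr (.inl p'), h => by
      refine ⟨rfl, fun h1 => ?_⟩
      simp only at h1 ⊢
      rw [h1]
  | .inr (.inl p'), .inl p, h => by
      refine ⟨rfl, fun h1 => ?_⟩
      simp only at h1 ⊢
      rw [h1]
  | .inr (.inl p), .inr (.inl p'), h => by
      simp only [good, Rel]
      by_cases h1 : p.1 = p'.1
      · rw [if_pos h1]
        refine ⟨by rw [h1], fun h2 => ?_⟩
        exact h (by rw [show p = p' from Prod.ext h1 h2])
      · rw [if_neg h1]
        cases hp : p.1 <;> cases hp' : p'.1 <;> simp_all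
  | .inr (.inr j), .inr (.inr j'), h => fun h1 => h (by rw [h1])
  | .inr (.inr _), .inl _, _ => trivial
  | .inr (.inr _), .inr (.inl _), _ => trivial
  | .inl _, .inr (.inr _), _ => trivial
  | .inr (.inl _), .inr (.inr _), _ => trivial

/-- the size of a clique whose colours belong to given sets -/
theorem clique_card_le {c : A → Fin r → Fin t} {act : Bool → Fin g} {idx : Bool → A}
    {z : A → A → Bool} (K : Finset (Vt g r t m u A))
    (hK : ∀ p ∈ K, ∀ q ∈ K, p ≠ q → Rel c act idx z p q)
    (S : Finset (Bool × Fin r)) (T : Finset (Bool × Fin m))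
    (hS : ∀ p, (Sum.inl p : Vt g r t m u A) ∈ K → (p.1, p.2.2.1) ∈ S)
    (hT : ∀ p, (Sum.inr (Sum.inl p) : Vt g r t m u A) ∈ K → (p.1, p.2.2) ∈ T) :
    K.card ≤ S.card + T.card + u := by
  classical
  have h1 : (K.image col).card = K.card := by
    apply card_image_of_injOn
    intro p hp q hq hpq
    by_contra hne
    exact (hK p hp q hq hne).col_ne hpq
  have h2 : K.image col ⊆ S.disjSum (T.disjSum (univ : Finset (Fin u))) := by
    intro k hk
    obtain ⟨p, hp, rfl⟩ := mem_image.1 hk
    rcases p with p | p | j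
    · exact mem_disjSum.2 (Or.inl ⟨_, hS p hp, rfl⟩)
    · exact mem_disjSum.2 (Or.inr ⟨_, mem_disjSum.2 (Or.inl ⟨_, hT p hp, rfl⟩), rfl⟩)
    · exact mem_disjSum.2 (Or.inr ⟨_, mem_disjSum.2 (Or.inr ⟨_, mem_univ _, rfl⟩), rfl⟩)
  have h3 := card_le_card h2
  rw [h1, card_disjSum, card_disjSum, card_univ, Fintype.card_fin] at h3
  omega

theorem card_side (k : ℕ) (σ : Bool) (B : Finset (Fin k)) :
    (univ.filter (fun p : Bool × Fin k => p.1 = σ → p.2 ∈ B)).card = k + B.card := by
  classical
  have h : univ.filter (fun p : Bool × Fin k => p.1 = σ → p.2 ∈ B) =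
      ({!σ} ×ˢ (univ : Finset (Fin k))) ∪ ({σ} ×ˢ B) := by
    ext ⟨b, i⟩
    cases b <;> cases σ <;> simp
  rw [h, card_union_of_disjoint, card_product, card_product]
  · simp
  · rw [disjoint_left]
    rintro ⟨b, i⟩ h1 h2
    rw [mem_product] at h1 h2
    cases b <;> cases σ <;> simp_all

/-- there are no large cliques if the queried bit is `false` -/
theorem clique_le {c : A → Fin r → Fin t} {act : Bool → Fin g} {idx : Bool → A}
    {z : A → A → Bool} {e : ℕ} (he : ∀ a a' : A, a ≠ a' →
      (univ.filter (fun l => c a l = c a' l)).card ≤ e)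
    (hz : z (idx false) (idx true) = false)
    (K : Finset (Vt g r t m u A))
    (hK : ∀ p ∈ K, ∀ q ∈ K, p ≠ q → Rel c act idx z p q) :
    K.card ≤ max (2 * r + m) (2 * m + r + e) + u := by
  classical
  -- a side without `W`
  by_cases hW : ∃ σ : Bool, ∀ p : Bool × A × Fin m, p.1 = σ →
      (Sum.inr (Sum.inl p) : Vt g r t m u A) ∉ K
  · obtain ⟨σ, hσ⟩ := hW
    have h := clique_card_le K hK univ (univ.filter (fun p : Bool × Fin m => p.1 = σ → p.2 ∈ (∅ :
      Finset (Fin m)))) (fun _ _ => mem_univ _) (fun p hp => by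
        rw [mem_filter]
        exact ⟨mem_univ _, fun h1 => absurd hp (hσ p h1)⟩)
    rw [card_side, card_univ, Fintype.card_prod, Fintype.card_bool, Fintype.card_fin] at h
    simp only [card_empty, add_zero] at h
    have h2 := le_max_left (2 * r + m) (2 * m + r + e)
    omega
  push Not at hW
  have hW' : ∀ σ : Bool, ∃ (x : A) (μ : Fin m),
      (Sum.inr (Sum.inl (σ, x, μ)) : Vt g r t m u A) ∈ K := by
    intro σ
    obtain ⟨⟨σ', x, μ⟩, h1, h2⟩ := hW σ
    simp only at h1
    subst h1
    exact ⟨x, μ, h2⟩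
  choose x μ hx using hW'
  have hz' : z (x false) (x true) = true := by
    have := hK _ (hx false) _ (hx true) (by simp)
    simpa [Rel] using this
  -- the indices are different on some side
  obtain ⟨σ, hσ⟩ : ∃ σ : Bool, x σ ≠ idx σ := by
    by_contra hcon
    push Not at hcon
    rw [hcon false, hcon true, hz] at hz'
    exact absurd hz' (by simp)
  -- a side without `U`
  by_cases hU : ∀ p : Bool × Fin g × Fin r × Fin t, p.1 = (!σ) →
      (Sum.inl p : Vt g r t m u A) ∉ K
  · have h := clique_card_le K hK (univ.filter (fun p : Bool × Fin r => p.1 = (!σ) → p.2 ∈ (∅ :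
      Finset (Fin r)))) univ (fun p hp => by
        rw [mem_filter]
        exact ⟨mem_univ _, fun h1 => absurd hp (hU p h1)⟩) (fun _ _ => mem_univ _)
    rw [card_side, card_univ, Fintype.card_prod, Fintype.card_bool, Fintype.card_fin] at h
    simp only [card_empty, add_zero] at h
    have h2 := le_max_right (2 * r + m) (2 * m + r + e)
    omega
  push Not at hU
  obtain ⟨p0, hp0, hp0K⟩ := hU
  have h := clique_card_le K hK (univ.filter (fun p : Bool × Fin r => p.1 = σ →
    p.2 ∈ univ.filter (fun l => c (x σ) l = c (idx σ) l))) univ (fun p hp => by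
      rw [mem_filter]
      refine ⟨mem_univ _, fun h1 => ?_⟩
      simp only at h1
      rw [mem_filter]
      refine ⟨mem_univ _, ?_⟩
      have h2 := hK _ hp _ (hx σ) (by simp)
      simp only [Rel] at h2
      have h3 := h2.2 h1
      have hne : p.1 ≠ p0.1 := by rw [h1, hp0]; cases σ <;> simp
      have h4 := hK _ hp _ hp0K (fun h => hne (by rw [Sum.inl.inj h]))
      simp only [Rel] at h4
      rw [if_neg hne] at h4
      rw [← h3, h4.2.2.1, h1]) (fun _ _ => mem_univ _)
  rw [card_side, card_univ, Fintype.card_prod, Fintype.card_bool, Fintype.card_fin] at h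
  have h2 := he (x σ) (idx σ) hσ
  have h3 := le_max_right (2 * r + m) (2 * m + r + e)
  omega

end

/-! ## the inputs -/

section

variable {n g r t m u : ℕ} {A : Type} (φ : Vt g r t m u A ↪ Fin n)

open Classical in
/-- the adjacency bits of the graph with the given edges (and without other edges) -/
noncomputable def inp (R : Vt g r t m u A → Vt g r t m u A → Prop) : Pairs n → Bool :=
  fun e => decide (∃ p q, φ p = e.1.1 ∧ φ q = e.1.2 ∧ R p q)

theorem inp_eq (R : Vt g r t m u A → Vt g r t m u A → Prop) (e : Pairs n) :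
    inp φ R e = true ↔ ∃ p q, φ p = e.1.1 ∧ φ q = e.1.2 ∧ R p q := by
  classical
  unfold inp
  exact decide_eq_true_iff

theorem inp_adj {c : A → Fin r → Fin t} {act : Bool → Fin g} {idx : Bool → A}
    {z : A → A → Bool} {i j : Fin n} :
    (graph (inp φ (Rel c act idx z))).Adj i j ↔
      i ≠ j ∧ ∃ p q, φ p = i ∧ φ q = j ∧ Rel c act idx z p q := by
  constructor
  · rintro (⟨h, h1⟩ | ⟨h, h1⟩)
    · exact ⟨h.ne, (inp_eq φ _ _).1 h1⟩
    · obtain ⟨p, q, hp, hq, hR⟩ := (inp_eq φ _ _).1 h1
      exact ⟨h.ne', q, p, hq, hp, hR.symm⟩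
  · rintro ⟨hne, p, q, hp, hq, hR⟩
    rcases lt_or_gt_of_ne hne with h | h
    · exact Or.inl ⟨h, (inp_eq φ _ _).2 ⟨p, q, hp, hq, hR⟩⟩
    · exact Or.inr ⟨h, (inp_eq φ _ _).2 ⟨q, p, hq, hp, hR.symm⟩⟩

theorem yes {c : A → Fin r → Fin t} {act : Bool → Fin g} {idx : Bool → A}
    {z : A → A → Bool} (hz : z (idx false) (idx true) = true) :
    ¬ (graph (inp φ (Rel c act idx z))).CliqueFree (2 * r + 2 * m + u) := by
  classical
  intro h
  have hinj : Function.Injective (fun k : Col r m u => φ (good c act idx k)) := by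
    intro k k' hk
    have := φ.injective hk
    rw [← col_good (t := t) c act idx k, this, col_good]
  refine h ((univ : Finset (Col r m u)).image (fun k => φ (good c act idx k))) ⟨?_, ?_⟩
  · intro i hi j hj hij
    simp only [coe_image, coe_univ, Set.image_univ, Set.mem_range] at hi hj
    obtain ⟨k, rfl⟩ := hi
    obtain ⟨k', rfl⟩ := hj
    rw [inp_adj]
    refine ⟨hij, _, _, rfl, rfl, good_rel c act idx z hz k k' ?_⟩
    rintro rfl
    exact hij rfl
  · rw [card_image_of_injective _ hinj, card_univ, Fintype.card_sum, Fintype.card_sum,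
      Fintype.card_prod, Fintype.card_prod, Fintype.card_bool]
    simp only [Fintype.card_fin]
    ring

theorem no {c : A → Fin r → Fin t} {act : Bool → Fin g} {idx : Bool → A}
    {z : A → A → Bool} {e : ℕ} (he : ∀ a a' : A, a ≠ a' →
      (univ.filter (fun l => c a l = c a' l)).card ≤ e)
    (hz : z (idx false) (idx true) = false) {s : ℕ} (hs : max (2 * r + m) (2 * m + r + e) + u < s)
    (hs1 : 2 ≤ s) :
    (graph (inp φ (Rel c act idx z))).CliqueFree s := by
  classical
  intro K hK
  have hsub : ∀ i ∈ K, ∃ p, φ p = i := by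
    intro i hi
    have h1 : 1 < K.card := by rw [hK.card_eq]; omega
    obtain ⟨j, hj, hij⟩ := exists_mem_ne h1 i
    have h2 := hK.isClique hi hj hij.symm
    rw [inp_adj] at h2
    obtain ⟨-, p, q, hp, -, -⟩ := h2
    exact ⟨p, hp⟩
  obtain ⟨K', hK'⟩ : ∃ K' : Finset (Vt g r t m u A), K = K'.map φ := by
    refine ⟨K.preimage φ φ.injective.injOn, ?_⟩
    ext i
    rw [mem_map]
    constructor
    · intro hi
      obtain ⟨p, hp⟩ := hsub i hi
      exact ⟨p, by rw [mem_preimage, hp]; exact hi, hp⟩
    · rintro ⟨p, hp, rfl⟩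
      exact mem_preimage.1 hp
  have h1 := clique_le (act := act) he hz K' (fun p hp q hq hpq => by
    have h2 := hK.isClique (show φ p ∈ (K : Set (Fin n)) by rw [hK']; simpa using hp)
      (show φ q ∈ (K : Set (Fin n)) by rw [hK']; simpa using hq) (fun h => hpq (φ.injective h))
    rw [inp_adj] at h2
    obtain ⟨-, p', q', hp', hq', hR⟩ := h2
    rw [← φ.injective hp', ← φ.injective hq']
    exact hR)
  have h2 : K'.card = s := by rw [← hK.card_eq, hK', card_map]
  omega

end

end Pool.Agent.R599.NC
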