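import Pool.Agent.R599.NC.Core
import Pool.Agent.R599.NC.Graph

set_option autoImplicit false

/-! # The lower bound for general parameters -/

namespace Pool.Agent.R599.NC

open Finset Pool.Agent.R562.QH Pool.Agent.TH697.Form Pool.Agent.TH697.Row Pool.Agent.Y638.WF

/-- The graph has a clique with `k` vertices, or no clique with `s` vertices. -/
def Promise (n k s : ℕ) (x : Pairs n → Bool) : Prop :=
  ¬ (graph x).CliqueFree k ∨ (graph x).CliqueFree s

section

variable {n g r t m u : ℕ} {A : Type} (φ : Vt g r t m u A ↪ Fin n)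

/-- the edge joins the groups of the block -/
def IsBlk (b : Fin g × Fin g) (e : Pairs n) : Prop :=
  ∃ p p' : Fin r × Fin t,
    (φ (Sum.inl (false, b.1, p)) = e.1.1 ∧ φ (Sum.inl (true, b.2, p')) = e.1.2) ∨
    (φ (Sum.inl (false, b.1, p)) = e.1.2 ∧ φ (Sum.inl (true, b.2, p')) = e.1.1)

theorem IsBlk.unique {b b' : Fin g × Fin g} {e : Pairs n} (h : IsBlk φ b e) (h' : IsBlk φ b' e) :
    b = b' := by
  obtain ⟨p, q, h⟩ := h
  obtain ⟨p', q', h'⟩ := h'
  rcases h with ⟨h1, h2⟩ | ⟨h1, h2⟩ <;> rcases h' with ⟨h3, h4⟩ | ⟨h3, h4⟩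
  · have e1 := φ.injective (h1.trans h3.symm)
    have e2 := φ.injective (h2.trans h4.symm)
    simp only [Sum.inl.injEq, Prod.mk.injEq] at e1 e2
    exact Prod.ext e1.2.1 e2.2.1
  · have e1 := φ.injective (h1.trans h4.symm)
    simp at e1
  · have e1 := φ.injective (h1.trans h4.symm)
    simp at e1
  · have e1 := φ.injective (h1.trans h3.symm)
    have e2 := φ.injective (h2.trans h4.symm)
    simp only [Sum.inl.injEq, Prod.mk.injEq] at e1 e2
    exact Prod.ext e1.2.1 e2.2.1

open Classical in
/-- the block of an edge -/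
noncomputable def grp (e : Pairs n) : Option (Fin g × Fin g) :=
  if h : ∃ b, IsBlk φ b e then some h.choose else none

theorem grp_eq {b : Fin g × Fin g} {e : Pairs n} : grp φ e = some b ↔ IsBlk φ b e := by
  classical
  unfold grp
  constructor
  · intro h
    by_cases h1 : ∃ b, IsBlk φ b e
    · rw [dif_pos h1] at h
      have h2 := h1.choose_spec
      rw [Option.some.inj h] at h2
      exact h2
    · rw [dif_neg h1] at h
      exact absurd h (by simp)
  · intro h
    have h1 : ∃ b, IsBlk φ b e := ⟨b, h⟩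
    rw [dif_pos h1]
    exact congrArg some (IsBlk.unique φ h1.choose_spec h)

/-- the active groups of a block -/
def actOf (b : Fin g × Fin g) (σ : Bool) : Fin g := if σ = true then b.2 else b.1

/-- the indices of a query -/
def idxOf (t : A × A) (σ : Bool) : A := if σ = true then t.2 else t.1

theorem rel_idx {c : A → Fin r → Fin t} {b : Fin g × Fin g} {idx idx' : Bool → A}
    {z : A → A → Bool} {e : Pairs n} (he : ¬ IsBlk φ b e) {p q : Vt g r t m u A}
    (hp : φ p = e.1.1) (hq : φ q = e.1.2) (h : Rel c (actOf b) idx z p q) :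
    Rel c (actOf b) idx' z p q := by
  rcases p with ⟨σ, i, l, x⟩ | ⟨σ, a, μ⟩ | j <;> rcases q with ⟨σ', i', l', x'⟩ | ⟨σ', a', μ'⟩ | j'
  · simp only [Rel] at h ⊢
    by_cases h1 : σ = σ'
    · rw [if_pos h1] at h ⊢
      exact h
    · exfalso
      apply he
      obtain ⟨h2, h3, -⟩ := h
      subst h2 h3
      cases σ
      · have hσ' : σ' = true := by cases σ' <;> simp_all
        subst hσ'
        exact ⟨(l, x), (l', x'), Or.inl ⟨hp, hq⟩⟩
      · have hσ' : σ' = false := by cases σ' <;> simp_all
        subst hσ'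
        exact ⟨(l', x'), (l, x), Or.inr ⟨hq, hp⟩⟩
  · exact h
  · exact h
  · exact h
  · exact h
  · exact h
  · exact h
  · exact h
  · exact h

theorem inp_idx {c : A → Fin r → Fin t} {b : Fin g × Fin g} {idx idx' : Bool → A}
    {z : A → A → Bool} {e : Pairs n} (he : ¬ IsBlk φ b e) :
    inp φ (Rel c (actOf b) idx z) e = inp φ (Rel c (actOf b) idx' z) e := by
  rw [Bool.eq_iff_iff, inp_eq, inp_eq]
  constructor
  · rintro ⟨p, q, hp, hq, h⟩
    exact ⟨p, q, hp, hq, rel_idx φ he hp hq h⟩
  · rintro ⟨p, q, hp, hq, h⟩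
    exact ⟨p, q, hp, hq, rel_idx φ he hp hq h⟩

theorem rel_z {c : A → Fin r → Fin t} {b : Fin g × Fin g} {idx : Bool → A}
    {z z' : A → A → Bool} {e : Pairs n} (he : IsBlk φ b e) {p q : Vt g r t m u A}
    (hp : φ p = e.1.1) (hq : φ q = e.1.2) (h : Rel c (actOf b) idx z p q) :
    Rel c (actOf b) idx z' p q := by
  obtain ⟨p', q', he⟩ := he
  rcases he with ⟨h1, h2⟩ | ⟨h1, h2⟩
  · have e1 := φ.injective (hp.trans h1.symm)
    have e2 := φ.injective (hq.trans h2.symm)
    subst e1 e2
    exact h
  · have e1 := φ.injective (hp.trans h2.symm)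
    have e2 := φ.injective (hq.trans h1.symm)
    subst e1 e2
    exact h

theorem inp_z {c : A → Fin r → Fin t} {b : Fin g × Fin g} {idx : Bool → A}
    {z z' : A → A → Bool} {e : Pairs n} (he : IsBlk φ b e) :
    inp φ (Rel c (actOf b) idx z) e = inp φ (Rel c (actOf b) idx z') e := by
  rw [Bool.eq_iff_iff, inp_eq, inp_eq]
  constructor
  · rintro ⟨p, q, hp, hq, h⟩
    exact ⟨p, q, hp, hq, rel_z φ he hp hq h⟩
  · rintro ⟨p, q, hp, hq, h⟩
    exact ⟨p, q, hp, hq, rel_z φ he hp hq h⟩

/-- the groups outside of the block -/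
noncomputable def outer (c : A → Fin r → Fin t) (b : Fin g × Fin g) (idx : Bool → A)
    (z : A → A → Bool) : ∀ b', GD (fun _ : Pairs n => Bool) (grp φ) b' :=
  fun _ e => inp φ (Rel c (actOf b) idx z) e.1

/-- the query -/
noncomputable def query (c : A → Fin r → Fin t) (b : Fin g × Fin g) (t : A × A) :
    GD (fun _ : Pairs n => Bool) (grp φ) (some b) :=
  fun e => inp φ (Rel c (actOf b) (idxOf t) (fun _ _ => false)) e.1

theorem ungroup_query (c : A → Fin r → Fin t) (b : Fin g × Fin g) (idx : Bool → A) (t : A × A)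
    (z : A → A → Bool) :
    ungroup (grp φ) (Function.update (outer φ c b idx z) (some b) (query φ c b t)) =
      inp φ (Rel c (actOf b) (idxOf t) z) := by
  funext e
  rw [ungroup_update]
  split_ifs with h
  · exact inp_z φ ((grp_eq φ).1 h)
  · exact inp_idx φ (fun h1 => h ((grp_eq φ).2 h1))

end

open Classical in
/-- The lower bound for general parameters. -/
theorem bound {n g r t m u e k s : ℕ} {A : Type} [Fintype A] [Nonempty A]
    (φ : Vt g r t m u A ↪ Fin n) (c : A → Fin r → Fin t)
    (he : ∀ a a' : A, a ≠ a' → (univ.filter (fun l => c a l = c a' l)).card ≤ e)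
    (hk : k = 2 * r + 2 * m + u) (hs : max (2 * r + m) (2 * m + r + e) + u < s) (hs1 : 2 ≤ s)
    (hsk : s ≤ k)
    {Ω : Type} [Fintype Ω] (μ : Ω → ℝ) (hμ : IsProb μ) {w V S : ℕ} (hw : 1 ≤ w) (hV : 1 ≤ V)
    {J : Type} [Fintype J] (size : J → ℕ) (hS : ∑ j, size j ≤ S)
    (B : Ω → (j : J) → Program (Pairs n) (fun _ => Bool) w 2 V (Promise n k s) (size j))
    (dec : Ω → (J → Bool) → Bool)
    (hB : ApproximatesOn μ (fun ω x => dec ω (fun j => (B ω j).eval x)) (Promise n k s)
      (fun x => decide (¬ (graph x).CliqueFree k))) :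
    (g : ℝ) ^ 2 * ((49 / 600 : ℝ) * (Fintype.card A : ℝ) ^ 2 -
      Fintype.card J * Real.logb 2 (S + 2)) ≤
      w * (1 + 12 * Real.logb 2 (2 * V + 1) + 4 * Real.logb 2 (S + 2) + 2 * (w - 1)) * S := by
  obtain ⟨a0⟩ := ‹Nonempty A›
  have hA : ∀ i ∈ (univ : Finset (Fin g × Fin g)).image some,
      Asks (A × A) 0 (fun x => Promise n k s (ungroup (grp φ) x))
        (fun x => decide (¬ (graph (ungroup (grp φ) x)).CliqueFree k)) i := by
    intro i hi
    rw [mem_image] at hi
    obtain ⟨b, -, rfl⟩ := hi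
    refine asks_of (Set.range (query φ c b)) (fun _ => 0) (fun t _ => query φ c b t)
      (fun z => outer φ c b (idxOf (a0, a0)) (fun a a' => z (a, a'))) (fun t z => ⟨t, rfl⟩)
      (fun t z z' _ => rfl) ?_ ?_
    · rintro _ ⟨t, rfl⟩ z
      rw [ungroup_query]
      cases hz : z t with
      | true => exact Or.inl (hk ▸ yes φ (by simpa [idxOf] using hz))
      | false => exact Or.inr (no φ he (by simpa [idxOf] using hz) hs hs1)
    · have h0 : ∀ z : A × A → Bool, univ.filter (fun t : A × A =>
          (decide (¬ (graph (ungroup (grp φ) (Function.update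
            (outer φ c b (idxOf (a0, a0)) (fun a a' => z (a, a')))
            (some b) (query φ c b t)))).CliqueFree k)) ≠ z t) = ∅ := by
        intro z
        rw [filter_eq_empty_iff]
        intro t _
        rw [not_not]
        rw [ungroup_query]
        cases hz : z t with
        | true => exact decide_eq_true (hk ▸ yes φ (by simpa [idxOf] using hz))
        | false =>
          refine decide_eq_false (not_not.2 ?_)
          exact (no φ he (by simpa [idxOf] using hz) hs hs1).mono hsk
      simp only [h0, card_empty, Nat.cast_zero, sum_const_zero, zero_mul, le_refl]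
  have h := multi_lower μ hμ V S (fun x => Promise n k s (ungroup (grp φ) x)) size hS
    (fun ω j => gprog (grp φ) (B ω j)) dec
    (fun x => decide (¬ (graph (ungroup (grp φ) x)).CliqueFree k))
    (fun x hx => by
      simp only [gprog_eval]
      exact hB (ungroup (grp φ) x) hx) hV (by norm_num) hw 0
    ((univ : Finset (Fin g × Fin g)).image some) hA
  rw [card_image_of_injective _ (Option.some_injective _), card_univ, Fintype.card_prod, Fintype.card_prod, Fintype.card_fin] at h
  have h2 : Real.logb 2 ((2 : ℕ) : ℝ) = 1 := by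
    rw [Nat.cast_ofNat]
    exact Real.logb_self_eq_one (by norm_num)
  rw [h2] at h
  push_cast at h
  have e1 : (g : ℝ) ^ 2 * ((49 / 600 : ℝ) * (Fintype.card A : ℝ) ^ 2 -
      Fintype.card J * Real.logb 2 (S + 2)) = (g : ℝ) * g * ((49 / 600 - 0) *
      ((Fintype.card A : ℝ) * Fintype.card A) - Fintype.card J * Real.logb 2 (S + 2)) := by ring
  rw [e1]
  refine h.trans (le_of_eq ?_)
  ring

end Pool.Agent.R599.NC
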