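import Pool.Agent.R599.NC.Block

set_option autoImplicit false

/-! # The code, and the choice of the parameters -/

namespace Pool.Agent.R599.NC

open Finset Filter Pool.Agent.R562.QH Pool.Agent.TH697.Form Pool.Agent.TH697.Row
  Pool.Agent.Y638.WF

open Classical in
/-- polynomials of small degree -/
theorem exists_code (p e r : ℕ) [Fact p.Prime] (he : 1 ≤ e) (hr : r ≤ p) :
    ∃ c : (Fin e → ZMod p) → Fin r → Fin p, ∀ a a', a ≠ a' →
      (univ.filter (fun l => c a l = c a' l)).card ≤ e - 1 := by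
  obtain ⟨E⟩ : Nonempty (ZMod p ≃ Fin p) := ⟨Fintype.equivFinOfCardEq (ZMod.card p)⟩
  refine ⟨fun a l => E (∑ i : Fin e, a i * ((l : ℕ) : ZMod p) ^ (i : ℕ)), fun a a' haa => ?_⟩
  obtain ⟨P, hP⟩ : ∃ P : Polynomial (ZMod p),
      P = ∑ i : Fin e, Polynomial.C (a i - a' i) * Polynomial.X ^ (i : ℕ) := ⟨_, rfl⟩
  have hP0 : P ≠ 0 := by
    intro h0
    apply haa
    funext i
    have h1 : P.coeff i = a i - a' i := by
      rw [hP, Polynomial.finsetSum_coeff]
      simp only [Polynomial.coeff_C_mul, Polynomial.coeff_X_pow]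
      rw [Finset.sum_eq_single i]
      · simp
      · intro j _ hj
        rw [if_neg (fun h => hj (Fin.ext h.symm)), mul_zero]
      · intro h
        exact absurd (mem_univ i) h
    rw [h0, Polynomial.coeff_zero] at h1
    exact (sub_eq_zero.1 h1.symm)
  have hdeg : P.natDegree ≤ e - 1 := by
    have h1 : P.degree < e := by rw [hP]; exact Polynomial.degree_sum_fin_lt _
    have h2 := (Polynomial.natDegree_lt_iff_degree_lt hP0).2 h1
    omega
  refine le_trans ?_ ((Polynomial.card_roots' P).trans hdeg)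
  refine le_trans ?_ (Multiset.toFinset_card_le _)
  refine card_le_card_of_injOn (fun l : Fin r => ((l : ℕ) : ZMod p)) ?_ ?_
  · intro l hl
    simp only [coe_filter, mem_univ, true_and, Set.mem_ofPred_eq] at hl
    have h1 := E.injective hl
    simp only [Multiset.mem_toFinset, mem_coe]
    rw [Polynomial.mem_roots hP0, Polynomial.IsRoot.def, hP, Polynomial.eval_finsetSum]
    simp only [Polynomial.eval_mul, Polynomial.eval_C, Polynomial.eval_pow, Polynomial.eval_X]
    simp only [sub_mul]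
    rw [sum_sub_distrib, sub_eq_zero]
    exact h1
  · intro l _ l' _ h
    simp only at h
    have h1 := (ZMod.natCast_eq_natCast_iff' _ _ _).1 h
    rw [Nat.mod_eq_of_lt (l.2.trans_le hr), Nat.mod_eq_of_lt (l'.2.trans_le hr)] at h1
    exact Fin.ext h1

/-- the choice of the parameters -/
theorem exists_params (e k : ℕ) (he : 1 ≤ e) (hk : 4 ≤ k) : ∃ C : ℝ, 0 < C ∧
    ∀ᶠ n : ℕ in atTop, ∃ g p : ℕ, p.Prime ∧ k ≤ p ∧
      2 * (g * ((k / 4) * p)) + (2 * (p ^ e * (k / 4)) + (k - 4 * (k / 4))) ≤ n ∧ g ≤ n ∧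
      C * (n : ℝ) ^ (2 - 1 / (e : ℝ)) ≤ g * (p : ℝ) ^ e := by
  obtain ⟨r, hr⟩ : ∃ r, r = k / 4 := ⟨_, rfl⟩
  have hr1 : 1 ≤ r := by omega
  have hkr : 4 * r ≤ k := by omega
  have hku : k - 4 * r ≤ 3 := by omega
  rw [← hr]
  have he0 : (0 : ℝ) < e := by exact_mod_cast he
  have hk0 : (0 : ℝ) < k := by
    have : 0 < k := by omega
    exact_mod_cast this
  have hr0 : (0 : ℝ) < r := by exact_mod_cast hr1
  refine ⟨1 / (256 * r * k * 2 ^ e), by positivity, ?_⟩
  have hbig : ∀ᶠ n : ℕ in atTop, (2 * k + 2 : ℝ) ≤ ((n / (8 * k) : ℕ) : ℝ) ^ (1 / (e : ℝ)) := by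
    have h1 : Tendsto (fun n : ℕ => n / (8 * k)) atTop atTop :=
      Nat.tendsto_div_const_atTop (by omega)
    have h2 : Tendsto (fun n : ℕ => ((n / (8 * k) : ℕ) : ℝ) ^ (1 / (e : ℝ))) atTop atTop :=
      (tendsto_rpow_atTop (by positivity)).comp (tendsto_natCast_atTop_atTop.comp h1)
    exact h2.eventually_ge_atTop _
  filter_upwards [hbig, eventually_ge_atTop (16 * k)] with n hn hnk
  obtain ⟨N, hN⟩ : ∃ N, N = n / (8 * k) := ⟨_, rfl⟩
  rw [← hN] at hn
  have hNn : N * (8 * k) ≤ n := by rw [hN]; exact Nat.div_mul_le_self _ _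
  have hNn' : n < (N + 1) * (8 * k) := by
    rw [hN]
    have := Nat.lt_div_mul_add (a := n) (b := 8 * k) (by omega)
    calc n < n / (8 * k) * (8 * k) + 8 * k := this
      _ = _ := by ring
  have hN1 : 1 ≤ N := by
    rw [hN]
    exact Nat.div_pos (by omega) (by omega)
  obtain ⟨X, hX⟩ : ∃ X : ℝ, X = (N : ℝ) ^ (1 / (e : ℝ)) := ⟨_, rfl⟩
  rw [← hX] at hn
  have hX0 : 0 ≤ X := by rw [hX]; positivity
  have hXe : X ^ e = N := by
    rw [hX, ← Real.rpow_natCast, ← Real.rpow_mul (Nat.cast_nonneg N), one_div,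
      inv_mul_cancel₀ he0.ne', Real.rpow_one]
  obtain ⟨x, hx⟩ : ∃ x, x = ⌊X⌋₊ := ⟨_, rfl⟩
  have hx1 : (x : ℝ) ≤ X := by rw [hx]; exact Nat.floor_le hX0
  have hx2 : X < x + 1 := by rw [hx]; exact Nat.lt_floor_add_one X
  have hxk : 2 * k + 1 ≤ x := by
    have h1 : (2 * k + 1 : ℝ) < x + 0 + 1 - 0 := by linarith
    have h2 : ((2 * k + 1 : ℕ) : ℝ) < ((x + 1 : ℕ) : ℝ) := by push_cast; linarith
    have h3 : 2 * k + 1 < x + 1 := by exact_mod_cast h2
    omega
  obtain ⟨p, hp, hp1, hp2⟩ := Nat.exists_prime_lt_and_le_two_mul (x / 2) (by omega)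
  have hpx : p ≤ x := by omega
  have hkp : k ≤ p := by omega
  have hpX : (p : ℝ) ≤ X := le_trans (by exact_mod_cast hpx) hx1
  have hpX2 : X ≤ 2 * p := by
    have h1 : x + 1 ≤ 2 * p := by omega
    have h2 : ((x + 1 : ℕ) : ℝ) ≤ ((2 * p : ℕ) : ℝ) := by exact_mod_cast h1
    push_cast at h2
    linarith
  have hpe : p ^ e ≤ N := by
    have h1 : (p : ℝ) ^ e ≤ X ^ e := pow_le_pow_left₀ (by positivity) hpX e
    rw [hXe] at h1
    exact_mod_cast h1
  have hpe2 : (N : ℝ) ≤ 2 ^ e * (p : ℝ) ^ e := by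
    rw [← hXe, ← mul_pow]
    exact pow_le_pow_left₀ hX0 hpX2 e
  have hpN : p ≤ N := (Nat.le_self_pow (by omega) p).trans hpe
  obtain ⟨g, hg⟩ : ∃ g, g = n / (8 * (r * p)) := ⟨_, rfl⟩
  have hp0 : 0 < p := hp.pos
  have hrp : 0 < r * p := Nat.mul_pos hr1 hp0
  have hg1 : g * (8 * (r * p)) ≤ n := by rw [hg]; exact Nat.div_mul_le_self _ _
  have hg2 : n < (g + 1) * (8 * (r * p)) := by
    rw [hg]
    have := Nat.lt_div_mul_add (a := n) (b := 8 * (r * p)) (by omega)
    calc n < n / (8 * (r * p)) * (8 * (r * p)) + 8 * (r * p) := this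
      _ = _ := by ring
  have hrpn : 32 * (r * p) ≤ n := by
    calc 32 * (r * p) ≤ 32 * (r * N) := by gcongr
      _ = N * (8 * (4 * r)) := by ring
      _ ≤ N * (8 * k) := by gcongr
      _ ≤ n := hNn
  have hgpos : 1 ≤ g := by
    rw [hg]
    exact Nat.div_pos (by omega) (by omega)
  refine ⟨g, p, hp, hkp, ?_, ?_, ?_⟩
  · have h1 : 32 * (p ^ e * r) ≤ n := by
      calc 32 * (p ^ e * r) ≤ 32 * (N * r) := by gcongr
        _ = N * (8 * (4 * r)) := by ring
        _ ≤ N * (8 * k) := by gcongr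
        _ ≤ n := hNn
    have h2 : g * (8 * (r * p)) = 8 * (g * (r * p)) := by ring
    omega
  · calc g ≤ g * (8 * (r * p)) := Nat.le_mul_of_pos_right _ (by omega)
      _ ≤ n := hg1
  · have hn0 : (0 : ℝ) < n := by
      have : 0 < n := by omega
      exact_mod_cast this
    have hp0' : (0 : ℝ) < p := by exact_mod_cast hp0
    have h1 : (n : ℝ) ≤ 16 * (r * p) * g := by
      have h2 : n ≤ 16 * (r * p) * g := by
        calc n ≤ (g + 1) * (8 * (r * p)) := hg2.le
          _ ≤ (g + g) * (8 * (r * p)) := by gcongr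
          _ = _ := by ring
      exact_mod_cast h2
    have h3 : (n : ℝ) ≤ 16 * k * N := by
      have h4 : n ≤ 16 * k * N := by
        calc n ≤ (N + 1) * (8 * k) := hNn'.le
          _ ≤ (N + N) * (8 * k) := by gcongr
          _ = _ := by ring
      exact_mod_cast h4
    have h5 : (p : ℝ) ≤ (n : ℝ) ^ (1 / (e : ℝ)) := by
      refine hpX.trans ?_
      rw [hX]
      refine Real.rpow_le_rpow (by positivity) ?_ (by positivity)
      have : N ≤ n := by
        calc N ≤ N * (8 * k) := Nat.le_mul_of_pos_right _ (by omega)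
          _ ≤ n := hNn
      exact_mod_cast this
    have h6 : (n : ℝ) * n ≤ (256 * r * k * 2 ^ e) * p * (g * (p : ℝ) ^ e) := by
      calc (n : ℝ) * n ≤ (16 * (r * p) * g) * (16 * k * N) := by gcongr
        _ ≤ (16 * (r * p) * g) * (16 * k * (2 ^ e * (p : ℝ) ^ e)) := by gcongr
        _ = _ := by ring
    rw [Real.rpow_sub hn0, Real.rpow_two, one_div_mul_eq_div, div_le_iff₀ (by positivity),
      div_le_iff₀ (by positivity)]
    have h7 : (256 * r * k * 2 ^ e) * p * (g * (p : ℝ) ^ e) ≤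
        (256 * r * k * 2 ^ e) * (n : ℝ) ^ (1 / (e : ℝ)) * (g * (p : ℝ) ^ e) := by gcongr
    calc (n : ℝ) ^ 2 = n * n := by ring
      _ ≤ _ := h6.trans h7
      _ = _ := by ring

end Pool.Agent.R599.NC
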