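import Pool.Agent.R599.NC.Group

set_option autoImplicit false

/-! # Lower bounds for functions of the results of several programs -/

namespace Pool.Agent.R599.NC

open Finset Pool.Agent.TH697.Form Pool.Agent.TH697.Row Pool.Agent.Y638.WF

variable {ι : Type} {D : ι → Type} [DecidableEq ι] {w q : ℕ} {T : Type} [Fintype T] {Ω : Type}
  [Fintype Ω] {J : Type} [Fintype J]

/-- The lower bound for arbitrary functions of the results of several random branching programs. -/
theorem multi_lower (μ : Ω → ℝ) (hμ : IsProb μ) (V S : ℕ) (P : (∀ i, D i) → Prop) (s : J → ℕ)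
    (hS : ∑ j, s j ≤ S)
    (B : Ω → (j : J) → Program ι D w q V P (s j)) (dec : Ω → (J → Bool) → Bool)
    (f : (∀ i, D i) → Bool)
    (hF : ApproximatesOn μ (fun ω x => dec ω (fun j => (B ω j).eval x)) P f) (hV : 1 ≤ V)
    (hq : 1 ≤ q) (hw : 1 ≤ w) (δ : ℝ) (I : Finset ι) (h : ∀ i ∈ I, Asks T δ P f i) :
    (I.card : ℝ) * ((49 / 600 - δ) * Fintype.card T - Fintype.card J * Real.logb 2 (S + 2)) ≤
      w * (1 + 12 * Real.logb 2 (2 * V + 1) + 4 * Real.logb 2 (S + 2) +
        2 * (w - 1) * Real.logb 2 q) * S := by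
  classical
  have h6 : (0 : ℝ) < Real.log 2 := Real.log_pos (by norm_num)
  have hs0 : (0 : ℝ) ≤ S := Nat.cast_nonneg S
  have hV0 : (1 : ℝ) ≤ V := by exact_mod_cast hV
  have hlq : 0 ≤ Real.log (q : ℝ) := Real.log_nonneg (by exact_mod_cast hq)
  have hls : 0 ≤ Real.log ((S : ℝ) + 2) := Real.log_nonneg (by linarith)
  have hlV : 0 ≤ Real.log (2 * (V : ℝ) + 1) := Real.log_nonneg (by linarith)
  have hw' : ((w - 1 : ℕ) : ℝ) = (w : ℝ) - 1 := by
    rw [Nat.cast_sub hw, Nat.cast_one]
  have hw1 : (0 : ℝ) ≤ (w : ℝ) - 1 := by rw [← hw']; positivity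
  obtain ⟨E, hE⟩ : ∃ E, E = (2 * V + 1) ^ 6 * (S + 1) * q ^ (w - 1) := ⟨_, rfl⟩
  obtain ⟨c, hc⟩ : ∃ c : ℝ, c = Real.log 2 + 12 * Real.log (2 * V + 1) + 4 * Real.log (S + 2) +
      2 * (w - 1) * Real.log q := ⟨_, rfl⟩
  have hc0 : 0 ≤ c := by rw [hc]; positivity
  have hq' : (0 : ℝ) < q := by exact_mod_cast hq
  have hEpos : (0 : ℝ) < E := by
    rw [hE]
    push_cast
    positivity
  have hcE : Real.log (2 * ((S : ℝ) + 2) ^ 2 * E ^ 2) ≤ c := by
    have h1 : Real.log ((S : ℝ) + 1) ≤ Real.log (S + 2) :=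
      Real.log_le_log (by positivity) (by linarith)
    rw [hc, hE]
    push_cast
    rw [Real.log_mul (by positivity) (by positivity), Real.log_mul (by positivity) (by positivity),
      Real.log_pow, Real.log_pow, Real.log_mul (by positivity) (by positivity),
      Real.log_mul (by positivity) (by positivity), Real.log_pow, Real.log_pow, hw']
    push_cast
    linarith
  have hsj : ∀ j, s j ≤ S := fun j => (single_le_sum (fun _ _ => Nat.zero_le _) (mem_univ j)).trans hS
  have h1 : ∀ i ∈ I, (49 / 600 - δ) * Fintype.card T * Real.log 2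
      ≤ ∑ ω, μ ω * (Fintype.card J * Real.log (S + 2) + c * ∑ j, ((B ω j).bp.reads i : ℝ)) := by
    intro i hi
    obtain ⟨A, r, Q, R, hQA, hQ, hP, hf⟩ := h i hi
    obtain ⟨y, hy⟩ : ∃ y : {d // d ∈ A} → D i, y = fun v => v.1 := ⟨_, rfl⟩
    have hZ : ∀ z ∈ Set.range R, ∀ v, P (Function.update z i (y v)) := by
      rintro _ ⟨z, rfl⟩ v
      rw [hy]
      exact hP v.1 v.2 z
    choose S' hS1 hS2 using fun ω j =>
      BP.subfunctions hV (Set.range R) i y hZ S E hq hE (B ω j).bp ((B ω j).size_le.trans (hsj j))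
        (B ω j).small (B ω j).start
    have hS3 : ∀ ω z, (fun u => dec ω (fun j => (B ω j).eval (Function.update (R z) i (y u)))) ∈
        (Fintype.piFinset (S' ω)).image (fun a => fun u => dec ω (fun j => a j u)) := by
      intro ω z
      rw [mem_image]
      refine ⟨fun j => fun u => (B ω j).bp.val (Function.update (R z) i (y u)) (B ω j).start,
        ?_, rfl⟩
      rw [Fintype.mem_piFinset]
      intro j
      exact hS2 ω j _ ⟨z, rfl⟩
    refine (gen_err' μ hμ (fun ω x => dec ω (fun j => (B ω j).eval x)) P f hF i y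
      (fun ω => (Fintype.piFinset (S' ω)).image (fun a => fun u => dec ω (fun j => a j u))) R
      hS3 r
      (fun t z => ⟨Q t z, hQA t z⟩) (fun t z z' hz => Subtype.ext (hQ t z z' hz))
      (fun t z => hZ _ ⟨z, rfl⟩ _) δ (by rw [hy]; exact hf)).trans ?_
    apply sum_le_sum
    intro ω _
    apply mul_le_mul_of_nonneg_left _ (hμ.nonneg ω)
    have hne : 1 ≤ ((Fintype.piFinset (S' ω)).image
        (fun a => fun u => dec ω (fun j => a j u))).card :=
      card_pos.2 ⟨_, hS3 ω (fun _ => false)⟩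
    have h2 : (((Fintype.piFinset (S' ω)).image
        (fun a => fun u => dec ω (fun j => a j u))).card : ℝ) ≤
        ∏ j, (((S : ℝ) + 2) * (2 * ((S : ℝ) + 2) ^ 2 * (E : ℝ) ^ 2) ^ (B ω j).bp.reads i) := by
      have h3 : ((Fintype.piFinset (S' ω)).image
        (fun a => fun u => dec ω (fun j => a j u))).card ≤
          ∏ j, ((S + 2) * (2 * (S + 2) ^ 2 * E ^ 2) ^ (B ω j).bp.reads i) := by
        refine card_image_le.trans ?_
        rw [Fintype.card_piFinset]
        exact prod_le_prod (fun _ _ => Nat.zero_le _) (fun j _ => hS1 ω j)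
      exact_mod_cast h3
    have h4 := Real.log_le_log (by exact_mod_cast hne) h2
    rw [Real.log_prod (fun j _ => by positivity)] at h4
    refine h4.trans ?_
    have h5 : ∀ j, Real.log (((S : ℝ) + 2) *
        (2 * ((S : ℝ) + 2) ^ 2 * (E : ℝ) ^ 2) ^ (B ω j).bp.reads i) ≤
        Real.log (S + 2) + c * ((B ω j).bp.reads i : ℝ) := by
      intro j
      rw [Real.log_mul (by positivity) (by positivity), Real.log_pow]
      have h5 : ((B ω j).bp.reads i : ℝ) * Real.log (2 * ((S : ℝ) + 2) ^ 2 * (E : ℝ) ^ 2) ≤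
          ((B ω j).bp.reads i : ℝ) * c := mul_le_mul_of_nonneg_left hcE (Nat.cast_nonneg _)
      linarith
    refine (sum_le_sum (fun j _ => h5 j)).trans ?_
    rw [sum_add_distrib, sum_const, nsmul_eq_mul, ← mul_sum, card_univ]
  have h2 := sum_le_sum h1
  rw [sum_const, nsmul_eq_mul, sum_comm] at h2
  have h3 : ∑ ω, ∑ i ∈ I, μ ω * (Fintype.card J * Real.log (S + 2) +
        c * ∑ j, ((B ω j).bp.reads i : ℝ)) ≤
      I.card * (Fintype.card J * Real.log (S + 2)) + c * w * S := by
    have e1 : (I.card : ℝ) * (Fintype.card J * Real.log (S + 2)) + c * w * S =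
        ∑ ω, μ ω * (I.card * (Fintype.card J * Real.log (S + 2)) + c * w * S) := by
      rw [← sum_mul, hμ.sum_one, one_mul]
    rw [e1]
    apply sum_le_sum
    intro ω _
    rw [← mul_sum]
    apply mul_le_mul_of_nonneg_left _ (hμ.nonneg ω)
    rw [sum_add_distrib, sum_const, nsmul_eq_mul, ← mul_sum]
    have h5 : ∑ i ∈ I, ∑ j, ((B ω j).bp.reads i : ℝ) ≤ w * S := by
      have h8 : ∑ i ∈ I, ∑ j, (B ω j).bp.reads i ≤ w * S := by
        rw [sum_comm]
        calc ∑ j, ∑ i ∈ I, (B ω j).bp.reads i ≤ ∑ j, w * s j :=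
              sum_le_sum fun j _ =>
                (BP.sum_reads_le I hw (B ω j).bp).trans (Nat.mul_le_mul_left _ (B ω j).size_le)
          _ = w * ∑ j, s j := by rw [mul_sum]
          _ ≤ w * S := Nat.mul_le_mul_left _ hS
      exact_mod_cast h8
    have h7 := mul_le_mul_of_nonneg_left h5 hc0
    linarith
  have h4 := h2.trans h3
  have h7 : w * (1 + 12 * Real.logb 2 (2 * V + 1) + 4 * Real.logb 2 (S + 2) +
      2 * (w - 1) * Real.logb 2 q) * S * Real.log 2 = c * w * S := by
    rw [hc]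
    simp only [Real.logb]
    field_simp
  have h8 : (I.card : ℝ) * ((49 / 600 - δ) * Fintype.card T -
      Fintype.card J * Real.logb 2 (S + 2)) * Real.log 2 =
      I.card * ((49 / 600 - δ) * Fintype.card T * Real.log 2) -
        I.card * (Fintype.card J * Real.log (S + 2)) := by
    rw [Real.logb]
    field_simp
  have h5 : (I.card : ℝ) * ((49 / 600 - δ) * Fintype.card T -
      Fintype.card J * Real.logb 2 (S + 2)) *
      Real.log 2 ≤ w * (1 + 12 * Real.logb 2 (2 * V + 1) + 4 * Real.logb 2 (S + 2) +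
      2 * (w - 1) * Real.logb 2 q) * S * Real.log 2 := by
    rw [h7, h8]
    linarith
  exact le_of_mul_le_mul_right h5 h6

end Pool.Agent.R599.NC
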