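import Pool.Agent.Y638.WF.Lower

set_option autoImplicit false

/-! # Grouping the items of the input of a program -/

namespace Pool.Agent.R599.NC

open Finset Pool.Agent.Y638.WF

variable {ι κ : Type} {D : ι → Type} {w q : ℕ}

/-- the items of a group, seen as one item -/
abbrev GD (D : ι → Type) (grp : ι → κ) (b : κ) : Type := ∀ e : {e : ι // grp e = b}, D e.1

/-- the input given by the groups -/
def ungroup (grp : ι → κ) (x : ∀ b, GD D grp b) : ∀ e, D e := fun e => x (grp e) ⟨e, rfl⟩

theorem ungroup_update [DecidableEq κ] (grp : ι → κ) (f : ∀ b, GD D grp b) (b : κ)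
    (v : GD D grp b) (e : ι) :
    ungroup grp (Function.update f b v) e =
      if h : grp e = b then v ⟨e, h⟩ else f (grp e) ⟨e, rfl⟩ := by
  have key : ∀ (b' : κ) (h : grp e = b'), Function.update f b v b' ⟨e, h⟩ =
      if h' : b' = b then v ⟨e, h.trans h'⟩ else f b' ⟨e, h⟩ := by
    intro b' h
    by_cases h' : b' = b
    · subst h'
      simp
    · rw [Function.update_of_ne h', dif_neg h']
  exact key _ rfl

/-- grouping for leaves -/
def gword (grp : ι → κ) (τ : Word ι D w q) : Word κ (GD D grp) w q where
  item k := grp (τ.item k)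
  view k y := τ.view k (y ⟨τ.item k, rfl⟩)
  out := τ.out

/-- grouping for formulas -/
def gfml (grp : ι → κ) : Fml ι D w q → Fml κ (GD D grp) w q
  | .const c => .const c
  | .item i f => .item (grp i) (fun y => f (y ⟨i, rfl⟩))
  | .word τ => .word (gword grp τ)
  | .add F G => .add (gfml grp F) (gfml grp G)
  | .mul F G => .mul (gfml grp F) (gfml grp G)
  | .max F G => .max (gfml grp F) (gfml grp G)
  | .min F G => .min (gfml grp F) (gfml grp G)
  | .pos F => .pos (gfml grp F)
  | .sym k h F => .sym k h (fun j => gfml grp (F j))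

theorem gfml_eval (grp : ι → κ) (F : Fml ι D w q) (x : ∀ b, GD D grp b) :
    (gfml grp F).eval x = F.eval (ungroup grp x) := by
  induction F with
  | const c => rfl
  | item i f => rfl
  | word τ => rfl
  | add F G ihF ihG => simp only [gfml, Fml.eval, ihF, ihG]
  | mul F G ihF ihG => simp only [gfml, Fml.eval, ihF, ihG]
  | max F G ihF ihG => simp only [gfml, Fml.eval, ihF, ihG]
  | min F G ihF ihG => simp only [gfml, Fml.eval, ihF, ihG]
  | pos F ih => simp only [gfml, Fml.eval, ih]
  | sym k h F ih => simp only [gfml, Fml.eval, ih]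

theorem gfml_size (grp : ι → κ) (F : Fml ι D w q) : (gfml grp F).size = F.size := by
  induction F with
  | const c => rfl
  | item i f => rfl
  | word τ => rfl
  | add F G ihF ihG => simp only [gfml, Fml.size, ihF, ihG]
  | mul F G ihF ihG => simp only [gfml, Fml.size, ihF, ihG]
  | max F G ihF ihG => simp only [gfml, Fml.size, ihF, ihG]
  | min F G ihF ihG => simp only [gfml, Fml.size, ihF, ihG]
  | pos F ih => simp only [gfml, Fml.size, ih]
  | sym k h F ih => simp only [gfml, Fml.size, ih]

theorem gfml_bd (grp : ι → κ) {V : ℕ} {P : (∀ i, D i) → Prop} {F : Fml ι D w q}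
    (h : F.Bd V P) : (gfml grp F).Bd V (fun x => P (ungroup grp x)) := by
  intro x hx
  rw [gfml_eval]
  exact h _ hx

theorem gfml_small (grp : ι → κ) {V : ℕ} {P : (∀ i, D i) → Prop} (F : Fml ι D w q)
    (h : F.Small V P) : (gfml grp F).Small V (fun x => P (ungroup grp x)) := by
  induction F with
  | const c => exact gfml_bd grp h
  | item i f => exact gfml_bd grp h
  | word τ => exact gfml_bd grp h
  | add F G ihF ihG => exact ⟨ihF h.1, ihG h.2.1, gfml_bd grp h.2.2⟩
  | mul F G ihF ihG => exact ⟨ihF h.1, ihG h.2.1, gfml_bd grp h.2.2⟩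
  | max F G ihF ihG => exact ⟨ihF h.1, ihG h.2⟩
  | min F G ihF ihG => exact ⟨ihF h.1, ihG h.2⟩
  | pos F ih => exact ih h
  | sym k H F ih => exact ⟨fun j => ih j (h.1 j), gfml_bd grp h.2⟩

/-- grouping for branching programs -/
def gbp (grp : ι → κ) : {n : ℕ} → BP ι D w q n → BP κ (GD D grp) w q n
  | _, .sinks => .sinks
  | _, .node B F no yes => .node (gbp grp B) (gfml grp F) no yes

theorem gbp_val (grp : ι → κ) (x : ∀ b, GD D grp b) : ∀ {n : ℕ} (B : BP ι D w q n)
    (v : Fin (n + 2)), (gbp grp B).val x v = B.val (ungroup grp x) v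
  | _, .sinks, v => rfl
  | _, .node B F no yes, v => by
      have h : (fun u => (gbp grp B).val x u) = fun u => B.val (ungroup grp x) u := by
        funext u
        exact gbp_val grp x B u
      have hF : (gfml grp F).accepts x = F.accepts (ungroup grp x) := by
        unfold Fml.accepts
        rw [gfml_eval]
      simp only [gbp, BP.val]
      rw [hF, gbp_val grp x B yes, gbp_val grp x B no, h]

theorem gbp_size (grp : ι → κ) : ∀ {n : ℕ} (B : BP ι D w q n), (gbp grp B).size = B.size
  | _, .sinks => rfl
  | _, .node B F _ _ => by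
      simp only [gbp, BP.size]
      rw [gbp_size grp B, gfml_size]

theorem gbp_small (grp : ι → κ) {V : ℕ} {P : (∀ i, D i) → Prop} : ∀ {n : ℕ} (B : BP ι D w q n),
    B.Small V P → (gbp grp B).Small V (fun x => P (ungroup grp x))
  | _, .sinks, _ => trivial
  | _, .node B F no yes, h => ⟨gbp_small grp B h.1, gfml_small grp F h.2⟩

/-- grouping for programs -/
def gprog (grp : ι → κ) {V s : ℕ} {P : (∀ i, D i) → Prop} (B : Program ι D w q V P s) :
    Program κ (GD D grp) w q V (fun x => P (ungroup grp x)) s where
  nodes := B.nodes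
  bp := gbp grp B.bp
  size_le := (gbp_size grp B.bp).le.trans B.size_le
  small := gbp_small grp B.bp B.small
  start := B.start

theorem gprog_eval (grp : ι → κ) {V s : ℕ} {P : (∀ i, D i) → Prop} (B : Program ι D w q V P s)
    (x : ∀ b, GD D grp b) : (gprog grp B).eval x = B.eval (ungroup grp x) :=
  gbp_val grp x B.bp B.start

end Pool.Agent.R599.NC
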